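import Pool.Agent.H25.INS.Tree

/-!
# A general type group acting on a simplicial tree whose Frattini subgroup has unbounded orbits

The problem asks whether the Frattini subgroup of every general type group of isometries of a
hyperbolic space has bounded orbits.  We give a counterexample in which the space is the geometric
realisation of a simplicial tree with countably many vertices.
-/

set_option autoImplicit false

open Filter

namespace Pool.Agent.Results.MP_54877a_al.UnboundedFrattini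

/-- Any two points are joined by a geodesic segment. -/
def Geodesic (S : Type) [MetricSpace S] : Prop :=
  ∀ x y : S, ∃ γ : ℝ → S, γ 0 = x ∧ γ (dist x y) = y ∧
    ∀ s ∈ Set.Icc (0 : ℝ) (dist x y), ∀ t ∈ Set.Icc (0 : ℝ) (dist x y),
      dist (γ s) (γ t) = |s - t|

/-- The Gromov product of `x` and `y` seen from `w`. -/
noncomputable def gp {S : Type} [MetricSpace S] (w x y : S) : ℝ :=
  (dist w x + dist w y - dist x y) / 2

/-- `S` is `δ`-hyperbolic in the sense of Gromov. -/
def Hyperbolic (S : Type) [MetricSpace S] (δ : ℝ) : Prop :=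
  ∀ w x y z : S, min (gp w x y) (gp w y z) - δ ≤ gp w x z

/-- `S` is (the geometric realisation of) a simplicial tree with vertex set `V` and edges of
length one: `S` is geodesic and `0`-hyperbolic, the distances between vertices and the Gromov
products of vertices are integers (so the branch points are vertices), and every point lies on a
segment between two vertices at distance one. -/
def IsTree (S : Type) [MetricSpace S] (V : Set S) : Prop :=
  Geodesic S ∧ Hyperbolic S 0 ∧ (∀ v ∈ V, ∀ w ∈ V, ∃ n : ℕ, dist v w = n) ∧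
    (∀ u ∈ V, ∀ v ∈ V, ∀ w ∈ V, ∃ n : ℕ, gp u v w = n) ∧
    ∀ x : S, ∃ v ∈ V, ∃ w ∈ V, dist v w = 1 ∧ dist v x + dist x w = 1

/-- `g` is loxodromic: for every point `s`, the map `n ↦ g ^ n s` from the integers to `S` is a
quasi-isometric embedding. -/
def Loxodromic {S : Type} [MetricSpace S] (g : S ≃ᵢ S) : Prop :=
  ∀ s : S, ∃ L A : ℝ, 1 ≤ L ∧ 0 ≤ A ∧ ∀ m n : ℤ,
    |(m : ℝ) - n| / L - A ≤ dist ((g ^ m) s) ((g ^ n) s) ∧
    dist ((g ^ m) s) ((g ^ n) s) ≤ L * |(m : ℝ) - n| + A

/-- Two sequences of points represent the same point of the Gromov boundary: seen from some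
(equivalently, from every) base point, the Gromov product of their `n`-th terms tends to
infinity. -/
def SameEnd {S : Type} [MetricSpace S] (u v : ℕ → S) : Prop :=
  ∃ s : S, Tendsto (fun n => gp s (u n) (v n)) atTop atTop

/-- `G` is of general type: it contains two loxodromic elements `g` and `h` without a common fixed
point at infinity.  The fixed points of `g` are represented by the sequences `g ^ n s` and
`g ^ (-n) s`, those of `h` by `h ^ n s` and `h ^ (-n) s`, where `s` is any point. -/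
def GeneralType {S : Type} [MetricSpace S] (G : Subgroup (S ≃ᵢ S)) : Prop :=
  ∃ g ∈ G, ∃ h ∈ G, Loxodromic g ∧ Loxodromic h ∧
    ∀ s : S, ∀ a : S ≃ᵢ S, (a = g ∨ a = g⁻¹) → ∀ b : S ≃ᵢ S, (b = h ∨ b = h⁻¹) →
      ¬ SameEnd (fun n => (a ^ n) s) (fun n => (b ^ n) s)

/-- The Frattini subgroup: the intersection of all maximal proper subgroups (the whole group, if
there are none). -/
def Frat (G : Type) [Group G] : Subgroup G := sInf {M | IsCoatom M}

/-- There are a simplicial tree `S` with nonempty countable vertex set `V` and a group `G` of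
isometries of `S` which preserves `V` and is of general type such that all orbits of the Frattini
subgroup of `G` on `S` are unbounded. -/
theorem result : ∃ (S : Type) (_ : MetricSpace S) (V : Set S) (G : Subgroup (S ≃ᵢ S)),
    IsTree S V ∧ V.Nonempty ∧ V.Countable ∧ (∀ g ∈ G, ∀ v ∈ V, g v ∈ V) ∧ GeneralType G ∧
      ∀ s : S, ¬ Bornology.IsBounded {x : S | ∃ k : G, k ∈ Frat G ∧ (k : S ≃ᵢ S) s = x} := by
  have hne : Nonempty H57.V := ⟨H57.nil⟩
  have hcount : Countable H57.V := inferInstance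
  refine ⟨H57.TreeMet.Re H57.TV, inferInstance, Set.range H57.TV.io, H57.phi.range,
    ⟨H57.TreeMet.geod, ?_, ?_, ?_, ?_⟩, ⟨_, H57.nil, rfl⟩, Set.countable_range _, ?_, ?_, ?_⟩
  · -- hyperbolicity with constant zero
    intro w x y z
    have h := H25.INS.four_re x z y w
    have e1 := dist_comm x w
    have e2 := dist_comm z w
    have e3 := dist_comm z y
    have e4 := dist_comm y w
    unfold gp
    rw [sub_zero]
    rcases le_max_iff.1 h with h | h
    · apply min_le_of_left_le
      linarith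
    · apply min_le_of_right_le
      linarith
  · -- integral distances
    rintro _ ⟨v, rfl⟩ _ ⟨w, rfl⟩
    exact ⟨H57.TV.d v w, H57.TreeMet.dist_io v w⟩
  · -- integral Gromov products
    rintro _ ⟨u, rfl⟩ _ ⟨v, rfl⟩ _ ⟨w, rfl⟩
    have h : ∀ x y : H57.V, H57.d x y + 2 * H57.cs x.1 y.1 = x.1.length + y.1.length := by
      intro x y
      have h1 := H57.cs_le_left x.1 y.1
      have h2 := H57.cs_le_right x.1 y.1
      unfold H57.d H57.dd
      omega
    have h1 := h u v
    have h2 := h u w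
    have h3 := h v w
    have h4 := H57.d_triangle v u w
    rw [H57.d_comm v u] at h4
    obtain ⟨n, hn⟩ : ∃ n : ℕ, H57.d u v + H57.d u w = H57.d v w + 2 * n :=
      ⟨(H57.d u v + H57.d u w - H57.d v w) / 2, by omega⟩
    refine ⟨n, ?_⟩
    unfold gp
    rw [H57.TreeMet.dist_io, H57.TreeMet.dist_io, H57.TreeMet.dist_io]
    change (((H57.d u v : ℕ) : ℝ) + ((H57.d u w : ℕ) : ℝ) - ((H57.d v w : ℕ) : ℝ)) / 2 = n
    have h5 : ((H57.d u v : ℕ) : ℝ) + ((H57.d u w : ℕ) : ℝ) =
        ((H57.d v w : ℕ) : ℝ) + 2 * n := by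
      exact_mod_cast hn
    rw [h5]
    ring
  · -- edges
    intro x
    obtain ⟨v, w, h1, h2⟩ := H25.INS.edge_re H25.INS.exists_nbr_V x
    refine ⟨_, ⟨v, rfl⟩, _, ⟨w, rfl⟩, ?_, h2⟩
    rw [H57.TreeMet.dist_io]
    unfold H57.TreeMet.D
    rw [h1]
    simp
  · -- the vertex set is preserved
    rintro _ ⟨g, rfl⟩ _ ⟨v, rfl⟩
    exact ⟨g.1 v, (H57.phi_io g v).symm⟩
  · -- general type
    have hl1 : ∀ n : ℤ, |(n : ℝ)| ≤ dist (H57.TV.io H57.nil)
        (((H57.phi ⟨H57.tr true, H57.NN_le_GG (H57.tr_mem_NN true)⟩) ^ n) (H57.TV.io H57.nil)) := by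
      intro n
      rw [← map_zpow, H57.phi_io, H57.TreeMet.dist_io]
      exact H57.disp (H57.tr_mem_ISO true) H57.tr_nil_ht n
    have hl2 : ∀ n : ℤ, |(n : ℝ)| ≤ dist (H57.TV.io H57.nil)
        (((H57.phi ⟨H57.t2, H57.NN_le_GG H57.t2_mem⟩) ^ n) (H57.TV.io H57.nil)) := by
      intro n
      rw [← map_zpow, H57.phi_io, H57.TreeMet.dist_io]
      exact H57.disp H57.t2_mem.1 H57.t2_ht n
    have hgr : ∀ n m : ℤ, gp (H57.TV.io H57.nil)
        (((H57.phi ⟨H57.tr true, H57.NN_le_GG (H57.tr_mem_NN true)⟩) ^ n) (H57.TV.io H57.nil))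
        (((H57.phi ⟨H57.t2, H57.NN_le_GG H57.t2_mem⟩) ^ m) (H57.TV.io H57.nil)) ≤ 0 := by
      intro n m
      unfold gp
      rw [← map_zpow, ← map_zpow, H57.phi_io, H57.phi_io, H57.TreeMet.dist_io,
        H57.TreeMet.dist_io, H57.TreeMet.dist_io]
      exact H57.gromov n m
    set g := H57.phi ⟨H57.tr true, H57.NN_le_GG (H57.tr_mem_NN true)⟩ with hg
    set h := H57.phi ⟨H57.t2, H57.NN_le_GG H57.t2_mem⟩ with hh
    set o := H57.TV.io H57.nil with ho
    refine ⟨g, ⟨_, rfl⟩, h, ⟨_, rfl⟩, H25.INS.lox_all g o hl1, H25.INS.lox_all h o hl2, ?_⟩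
    rintro s a ha b hb ⟨s', hcon⟩
    have hz : ∀ (f c : H57.TreeMet.Re H57.TV ≃ᵢ H57.TreeMet.Re H57.TV), (c = f ∨ c = f⁻¹) →
        ∀ n : ℕ, ∃ m : ℤ, c ^ n = f ^ m := by
      rintro f c (rfl | rfl) n
      · exact ⟨n, (zpow_natCast _ _).symm⟩
      · exact ⟨-n, by rw [inv_pow, zpow_neg, zpow_natCast]⟩
    have hd1 : 0 ≤ dist s o := dist_nonneg
    have hd2 : 0 ≤ dist s' o := dist_nonneg
    obtain ⟨n, hn⟩ := ((tendsto_atTop.mp hcon) (3 * (dist s o + dist s' o) + 1)).exists
    obtain ⟨m1, hm1⟩ := hz g a ha n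
    obtain ⟨m2, hm2⟩ := hz h b hb n
    have h1 := H25.INS.gp_le s' o ((a ^ n) s) ((b ^ n) s) ((a ^ n) o) ((b ^ n) o)
      (dist s o + dist s' o) (by linarith)
      (by rw [IsometryEquiv.dist_eq]; linarith) (by rw [IsometryEquiv.dist_eq]; linarith)
    have h2 := hgr m1 m2
    rw [← hm1, ← hm2] at h2
    unfold gp at hn h2
    linarith
  · -- unbounded orbits
    intro s hs
    rw [Metric.isBounded_iff] at hs
    obtain ⟨C, hC⟩ := hs
    obtain ⟨k, hk⟩ := exists_nat_ge (C + 2 * dist s (H57.TV.io H57.nil))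
    obtain ⟨l, hl, hld⟩ := H57.LL_unbounded k
    have hlG : l ∈ H57.GG := H57.NN_le_GG (H57.LL_le_NN hl)
    have hmem : H57.phi.rangeRestrict ⟨l, hlG⟩ ∈ Frat H57.phi.range := by
      unfold Frat
      rw [Subgroup.mem_sInf]
      intro M hM
      exact frattini_le_coatom hM (H57.LL_frattini hl hlG)
    have h1 := hC (x := s) ⟨1, one_mem _, rfl⟩
      (y := H57.phi ⟨l, hlG⟩ s) ⟨H57.phi.rangeRestrict ⟨l, hlG⟩, hmem, rfl⟩
    have h2 : dist (H57.TV.io H57.nil) (H57.phi ⟨l, hlG⟩ (H57.TV.io H57.nil)) =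
        2 * ((k : ℝ) + 1) := by
      rw [H57.phi_io, H57.TreeMet.dist_io]
      change ((H57.d _ _ : ℕ) : ℝ) = _
      rw [hld]
      push_cast
      ring
    have h3 := dist_triangle4 (H57.TV.io H57.nil) s (H57.phi ⟨l, hlG⟩ s)
      (H57.phi ⟨l, hlG⟩ (H57.TV.io H57.nil))
    rw [IsometryEquiv.dist_eq, dist_comm (H57.TV.io H57.nil) s] at h3
    have h4 : (0 : ℝ) ≤ k := Nat.cast_nonneg k
    linarith

end Pool.Agent.Results.MP_54877a_al.UnboundedFrattini
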